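import Mathlib

namespace Pool.Agent.Results.MP_d02d3c_an.Zero

open Finset Filter Topology Real unitInterval

/-- `(n, ε)`-separated finite sets. -/
def Sep (φ : I → I) (n : ℕ) (ε : ℝ) (E : Finset I) : Prop :=
  ∀ x ∈ E, ∀ y ∈ E, x ≠ y → ∃ k < n, ε < |(φ^[k] x : ℝ) - φ^[k] y|

/-- The largest cardinality of an `(n, ε)`-separated set. -/
noncomputable def s (φ : I → I) (n : ℕ) (ε : ℝ) : ℕ := sSup {m | ∃ E, Sep φ n ε E ∧ #E = m}

/-- Entropy at scale `ε`. -/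
noncomputable def h (φ : I → I) (ε : ℝ) : ℝ := limsup (fun n : ℕ => log (s φ n ε) / n) atTop

lemma cnt {φ : I → I} {ε δ : ℝ} (hε : 0 < ε)
    (hφ : ∀ x y : I, |(x : ℝ) - y| ≤ ε → |(φ x : ℝ) - φ y| ≤ δ) (n : ℕ) : ∀ (d : ℝ) (E : Finset I),
    Sep φ n ε E → (∀ x ∈ E, ∀ y ∈ E, |(x : ℝ) - y| ≤ d) →
    #E ≤ (2 * ⌈δ / ε⌉₊ + 1) ^ (n - 1) * if n = 0 then 1 else 2 * ⌈d / ε⌉₊ + 1 := by
  classical
  induction n with
  | zero =>
    intro d E h _
    exact card_le_one.2 fun x hx y hy => by_contra fun e => by simpa using h x hx y hy e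
  | succ n ih =>
    intro d E h hd
    rcases E.eq_empty_or_nonempty with rfl | ⟨z, hz⟩
    · simp
    refine (card_le_mul_card_image_of_maps_to (f := fun x : I => ⌊(x : ℝ) / ε⌋)
      (t := Icc (⌊(z : ℝ) / ε⌋ - ⌈d / ε⌉₊) (⌊(z : ℝ) / ε⌋ + ⌈d / ε⌉₊)) (fun x hx => ?_)
      ((2 * ⌈δ / ε⌉₊ + 1) ^ n) fun b _ => ?_).trans (le_of_eq (by simp; omega))
    · have := abs_le.1 (hd x hx z hz)
      have e := Nat.le_ceil (d / ε)
      have a : (x : ℝ) / ε ≤ z / ε + d / ε := by rw [← add_div]; gcongr; linarith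
      have b : (z : ℝ) / ε - d / ε ≤ x / ε := by rw [← sub_div]; gcongr; linarith
      rw [← Int.floor_add_natCast, ← Int.floor_sub_natCast, mem_Icc]
      exact ⟨Int.floor_le_floor (by linarith), Int.floor_le_floor (by linarith)⟩
    have cl : ∀ x ∈ E.filter fun x : I => ⌊(x : ℝ) / ε⌋ = b, ∀ y ∈ E.filter
        fun x : I => ⌊(x : ℝ) / ε⌋ = b, |(x : ℝ) - y| ≤ ε := fun x hx y hy => by
      have := Int.abs_sub_lt_one_of_floor_eq_floor ((mem_filter.1 hx).2.trans (mem_filter.1 hy).2.symm)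
      rw [← sub_div, abs_div, abs_of_pos hε, div_lt_one hε] at this
      exact this.le
    have sp : ∀ x ∈ E.filter fun x : I => ⌊(x : ℝ) / ε⌋ = b, ∀ y ∈ E.filter
        fun x : I => ⌊(x : ℝ) / ε⌋ = b, x ≠ y → ∃ k < n, ε < |(φ^[k] (φ x) : ℝ) - φ^[k] (φ y)| :=
      fun x hx y hy e => by
        obtain ⟨_ | k, hk, g⟩ := h x (mem_filter.1 hx).1 y (mem_filter.1 hy).1 e
        exacts [absurd (cl x hx y hy) g.not_ge, ⟨k, by omega, g⟩]
    rw [← card_image_of_injOn (f := φ) fun x hx y hy e => by_contra fun g => by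
      obtain ⟨k, -, hk⟩ := sp x hx y hy g
      simp [e, hε.not_gt] at hk]
    refine (ih δ _ (fun x hx y hy e => ?_) fun x hx y hy => ?_).trans (le_of_eq ?_)
    · obtain ⟨x, hx', rfl⟩ := mem_image.1 hx
      obtain ⟨y, hy', rfl⟩ := mem_image.1 hy
      exact sp x hx' y hy' fun g => e (g ▸ rfl)
    · obtain ⟨x, hx', rfl⟩ := mem_image.1 hx
      obtain ⟨y, hy', rfl⟩ := mem_image.1 hy
      exact hφ x y (cl x hx' y hy')
    · cases n <;> simp [pow_succ]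

lemma hb {φ : I → I} {ε δ : ℝ} (hε : 0 < ε)
    (hφ : ∀ x y : I, |(x : ℝ) - y| ≤ ε → |(φ x : ℝ) - φ y| ≤ δ) :
    0 ≤ h φ ε ∧ h φ ε ≤ log (2 * ⌈δ / ε⌉₊ + 1 : ℕ) := by
  set M := 2 * ⌈δ / ε⌉₊ + 1
  set B := 2 * ⌈1 / ε⌉₊ + 1
  have a : ∀ n : ℕ, log (s φ n ε) / n ≤ log M + log B / n := fun n => by
    rcases n.eq_zero_or_pos with rfl | n0
    · simpa using log_natCast_nonneg M
    have : s φ n ε ≤ M ^ n * B := csSup_le' fun _ ⟨E, hE, e⟩ => e ▸ (cnt hε hφ n 1 E hE fun x _ y _ =>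
      abs_le.2 ⟨by linarith [x.2.1, y.2.2], by linarith [x.2.2, y.2.1]⟩).trans (by
        rw [if_neg n0.ne']; gcongr <;> omega)
    rw [div_le_iff₀ (by positivity), add_mul, div_mul_cancel₀ _ (by positivity), mul_comm, ← log_pow,
      ← log_mul (by positivity) (by positivity)]
    rcases (s φ n ε).eq_zero_or_pos with e | e
    · rw [e, Nat.cast_zero, log_zero]; exact_mod_cast log_natCast_nonneg (M ^ n * B)
    · exact log_le_log (by exact_mod_cast e) (by exact_mod_cast this)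
  have t : Tendsto (fun n : ℕ => log M + log B / n) atTop (𝓝 (log M)) := by
    simpa using (tendsto_const_div_atTop_nhds_zero_nat (log B)).const_add (log M)
  have z : ∀ n : ℕ, 0 ≤ log (s φ n ε) / n := fun n => div_nonneg (log_natCast_nonneg _) n.cast_nonneg
  exact ⟨le_limsup_of_frequently_le (.of_forall z) (t.isBoundedUnder_le.mono_le (.of_forall a)),
    (limsup_le_limsup (.of_forall a) (isCoboundedUnder_le_of_le atTop z) t.isBoundedUnder_le).trans_eq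
      t.limsup_eq⟩

theorem result (φ : I → I) (hφ : ∀ α ∈ Set.Ioo (0 : ℝ) 1, ∃ C > 0, ∀ x y : I,
    |(φ x : ℝ) - φ y| ≤ C * |(x : ℝ) - y| ^ α) :
    Tendsto (fun ε => h φ ε / |log ε|) (𝓝[>] 0) (𝓝 0) := by
  refine tendsto_order.2 ⟨fun a ha => ?_, fun η hη => ?_⟩
  · obtain ⟨C, -, hC⟩ := hφ (1 / 2) (by norm_num)
    filter_upwards [self_mem_nhdsWithin] with ε hε
    exact ha.trans_le (div_nonneg (hb (δ := 1) hε fun x y _ => abs_le.2
      ⟨by linarith [(φ x).2.1, (φ y).2.2], by linarith [(φ x).2.2, (φ y).2.1]⟩).1 (abs_nonneg _))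
  obtain ⟨β, b0, b1, b2⟩ : ∃ β : ℝ, 0 < β ∧ β < 1 ∧ 2 * β < η :=
    ⟨min η 1 / 3, by positivity, by linarith [min_le_right η 1], by linarith [min_le_left η 1]⟩
  obtain ⟨C, C0, hC⟩ := hφ (1 - β) ⟨by linarith, by linarith⟩
  filter_upwards [Ioo_mem_nhdsGT one_pos, tendsto_log_nhdsGT_zero.eventually_le_atBot
    (-(log (2 * C + 3) / β))] with ε ⟨e0, e1⟩ hl
  have l0 := log_neg e0 e1
  have := (hb (δ := C * ε ^ (1 - β)) e0 fun x y e => (hC x y).trans (by gcongr)).2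
  have r1 : 1 ≤ ε ^ (-β) := one_le_rpow_of_pos_of_le_one_of_nonpos e0 e1.le (by linarith)
  have e : C * ε ^ (1 - β) / ε = C * ε ^ (-β) := by
    rw [sub_eq_add_neg, rpow_add e0, rpow_one]; field_simp
  have c := Nat.ceil_lt_add_one (show 0 ≤ C * ε ^ (-β) by positivity)
  have k : h φ ε ≤ log (2 * C + 3) + -β * log ε := by
    rw [← log_rpow e0, ← log_mul (by positivity) (by positivity)]
    refine this.trans (log_le_log (by positivity) ?_)
    rw [e]; push_cast; linarith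
  rw [le_neg, div_le_iff₀ b0] at hl
  rw [abs_of_neg l0, div_lt_iff₀ (by linarith)]
  nlinarith

end Pool.Agent.Results.MP_d02d3c_an.Zero
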